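import Pool.Agent.Helper1.IM.Var

/-!
# Project IM, finiteness: the nil congruences with modular filter are the congruences above finitely many finitely
generated ones
-/

set_option autoImplicit false

open Helper1.IM

namespace Pool.Agent.Helper93.IM

/-- Congruence side of the finiteness theorem. -/
def StFin : Prop := ∃ L : Finset (Finset (Wd × Wd)),
  (∀ E ∈ L, ∀ p ∈ E, p.1 ≠ [] ∧ p.2 ≠ [] ∧ p.1.length ≤ 8 ∧ p.2.length ≤ 8) ∧
  (∀ E ∈ L, ∀ α : FIC, (∀ p ∈ E, α.r p.1 p.2) → NilF α ∧ ModAt α) ∧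
  (∀ θ : FIC, NilF θ → ModAt θ → ∃ E ∈ L, ∀ p ∈ E, θ.r p.1 p.2)

/-- A finite set of at most `n` letters can be renamed into the letters below `n`. -/
theorem ren (S : Finset ℕ) (n : ℕ) (h : S.card ≤ n) : ∃ p : Equiv.Perm ℕ, ∀ i ∈ S, p i < n := by
  obtain ⟨p, hp⟩ := exists_perm_extend S (fun i => (S.filter (· < i)).card) (by
    intro i hi j hj hij
    by_contra hne
    simp only at hij
    rcases lt_or_gt_of_ne hne with hlt | hlt
    · have h1 : S.filter (· < i) ⊂ S.filter (· < j) := by
        refine Finset.ssubset_iff_subset_ne.2 ⟨fun a ha => ?_, fun heq => ?_⟩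
        · simp only [Finset.mem_filter] at ha ⊢
          exact ⟨ha.1, ha.2.trans hlt⟩
        · have : i ∈ S.filter (· < j) := by simp only [Finset.mem_filter]; exact ⟨hi, hlt⟩
          rw [← heq] at this
          simp at this
      have := Finset.card_lt_card h1
      omega
    · have h1 : S.filter (· < j) ⊂ S.filter (· < i) := by
        refine Finset.ssubset_iff_subset_ne.2 ⟨fun a ha => ?_, fun heq => ?_⟩
        · simp only [Finset.mem_filter] at ha ⊢
          exact ⟨ha.1, ha.2.trans hlt⟩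
        · have : j ∈ S.filter (· < i) := by simp only [Finset.mem_filter]; exact ⟨hj, hlt⟩
          rw [← heq] at this
          simp at this
      have := Finset.card_lt_card h1
      omega)
  refine ⟨p, fun i hi => ?_⟩
  rw [hp i hi]
  have h1 : S.filter (· < i) ⊂ S := by
    refine Finset.ssubset_iff_subset_ne.2 ⟨Finset.filter_subset _ _, fun heq => ?_⟩
    rw [← heq] at hi
    simp at hi
  have := Finset.card_lt_card h1
  omega

/-- The words of the universe. -/
def UW : Set Wd := {w | w ≠ [] ∧ w.length ≤ 8 ∧ ∀ a ∈ w, a.1 < 16}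

theorem UW_finite : UW.Finite := by
  have h1 : {l : List (Fin 16 × Bool) | l.length ≤ 8}.Finite := List.finite_length_le _ _
  refine (h1.image (fun l => l.map (fun a => ((a.1 : ℕ), a.2)))).subset ?_
  rintro w ⟨-, hl, ha⟩
  refine ⟨w.attach.map (fun a => (⟨a.1.1, ha a.1 a.2⟩, a.1.2)), by simpa using hl, ?_⟩
  simp only [List.map_map, Function.comp_def]
  conv_rhs => rw [← List.attach_map_subtype_val w]

/-- The pairs of words of the universe which are related. -/
noncomputable def Eof (θ : FIC) : Finset (Wd × Wd) :=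
  open Classical in (UW_finite.toFinset ×ˢ UW_finite.toFinset).filter (fun p => θ.r p.1 p.2)

theorem tr {θ α : FIC} (hE : ∀ p ∈ Eof θ, α.r p.1 p.2) {u v : Wd} (hu : u ≠ []) (hlu : u.length ≤ 8)
    (hlv : v.length ≤ 8) (h : θ.r u v) : α.r u v := by
  have hv : v ≠ [] := θ.ne'' h hu
  have hc : (ct u ∪ ct v).card ≤ 16 := by
    have h1 := Finset.card_union_le (ct u) (ct v)
    have h2 := card_ct_le u
    have h3 := card_ct_le v
    omega
  obtain ⟨p, hp⟩ := ren _ 16 hc
  have key : ∀ w : Wd, w ≠ [] → w.length ≤ 8 → ct w ⊆ ct u ∪ ct v → rw' p (fun _ => false) w ∈ UW := by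
    intro w hw hl hcw
    refine ⟨by simpa using hw, by simpa using hl, ?_⟩
    intro a ha
    have h1 : a.1 ∈ ct (rw' p (fun _ => false) w) := mem_ct.2 ⟨a.2, ha⟩
    rw [ct_rw', Finset.mem_image] at h1
    obtain ⟨i, hi, hia⟩ := h1
    rw [← hia]
    exact hp i (hcw hi)
  have h1 : (rw' p (fun _ => false) u, rw' p (fun _ => false) v) ∈ Eof θ := by
    classical
    unfold Eof
    simp only [Finset.mem_filter, Finset.mem_product, Set.Finite.mem_toFinset]
    exact ⟨⟨key u hu hlu Finset.subset_union_left, key v hv hlv Finset.subset_union_right⟩, θ.rn p _ h⟩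
  have h2 : α.r (rw' p⁻¹ (fun i => (fun _ => false) (p⁻¹ i)) (rw' p (fun _ => false) u))
      (rw' p⁻¹ (fun i => (fun _ => false) (p⁻¹ i)) (rw' p (fun _ => false) v)) :=
    α.rn p⁻¹ (fun i => (fun _ => false) (p⁻¹ i)) (hE _ h1)
  rwa [rw'_inv p (fun _ => false) u, rw'_inv p (fun _ => false) v] at h2

theorem tr_zero {θ α : FIC} (hE : ∀ p ∈ Eof θ, α.r p.1 p.2) {u : Wd} (hlu : u.length ≤ 7)
    (h : Zero θ u) : Zero α u := by
  obtain ⟨t, ht⟩ := exists_fresh u
  have h1 : α.r (u ++ [X t]) u := tr hE (by simp) (by simp; omega) (by omega) (h.2 [X t]).1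
  have h2 : α.r ([X t] ++ u) u := tr hE (by simp) (by simp; omega) (by omega) (h.2 [X t]).2
  refine ⟨h.1, fun w => ?_⟩
  by_cases hw : w = []
  · subst hw; simp [α.refl']
  set g : ℕ → Wd := fun i => if i = t then w else [(i, false)] with hg
  have hgn : ∀ i, g i ≠ [] := fun i => by
    by_cases hi : i = t
    · simp [hg, hi, hw]
    · simp [hg, hi]
  have hgu : sb g u = u := by
    rw [sb_congr g (fun i => [(i, false)]) u (fun i hi => ?_), sb_id]
    have : i ≠ t := fun h => ht (h ▸ hi)
    simp [hg, this]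
  have hgt : sb g [X t] = w := by simp [hg]
  constructor
  · have := α.sub' g hgn h1
    rwa [sb_append, hgu, hgt] at this
  · have := α.sub' g hgn h2
    rwa [sb_append, hgu, hgt] at this

theorem pow7 {θ : FIC} (h : Typ θ) : Zero θ (List.replicate 7 (0, false)) := by
  have hoc : ∀ i, oc i (List.replicate 7 ((0, false) : Lt)) = if i = 0 then 7 else 0 := by
    intro i
    simp only [oc, List.map_replicate, List.count_replicate]
    by_cases hi : i = 0
    · simp [hi]
    · simp [hi, Ne.symm hi]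
  have hnl : ¬ Lin (List.replicate 7 ((0, false) : Lt)) := by
    rw [lin_iff]; intro hh
    have := hh 0
    rw [hoc] at this
    simp at this
  rcases h.2.2 with h1 | h1 | h1
  · exact h1.r1 _ (by simp) ⟨0, by rw [hoc]; simp⟩
  · by_contra hz
    obtain ⟨i, hi1, hi2, -⟩ := h1.e1 _ (by simp) hnl hz
    rw [hoc] at hi1 hi2
    split_ifs at hi1 hi2 <;> omega
  · by_contra hz
    obtain ⟨i, hi1, -⟩ := h1.d1 _ (by simp) hnl hz
    rw [hoc] at hi1
    by_cases hi : i = 0
    · rw [if_pos hi] at hi1; omega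
    · rw [if_neg hi] at hi1; omega

theorem le_of {θ α δ : FIC} (hX : StHX) (hT : Typ θ) (hE : ∀ p ∈ Eof θ, α.r p.1 p.2) (hl : Le α δ)
    (hc : Col 7 δ) : Le θ δ := by
  have key : ∀ u v : Wd, θ.r u v → u.length ≤ 6 → 7 ≤ v.length → δ.r u v := by
    intro u v h hu hv
    have h1 : Zero δ u := (tr_zero hE (by omega) (hX θ hT u v h (by omega) hv)).le hl
    have h2 := (h1.2 (List.replicate 7 (0, false))).1
    exact δ.trans' (δ.symm' h2) (hc _ _ (by simp) hv)
  intro u v h
  by_cases hu0 : u = []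
  · have := θ.ne' h hu0
    rw [hu0, this]
    exact δ.refl' _
  rcases Nat.lt_or_ge 6 u.length with hu | hu <;> rcases Nat.lt_or_ge 6 v.length with hv | hv
  · exact hc u v hu hv
  · exact δ.symm' (key v u (θ.symm' h) hv hu)
  · exact key u v h hu hv
  · exact hl _ _ (tr hE hu0 (by omega) (by omega) h)

theorem hFin (hT : StTy) (hX : StHX) (hM : StMain) : StFin := by
  classical
  have mod7 : ∀ θ : FIC, ModAt θ → Mod7 θ := fun θ h α β γ ha hb hc _ _ _ hac u v hj hg =>
    h α β γ ha hb hc hac u v hj hg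
  have main : ∀ θ : FIC, NilF θ → ModAt θ → ∀ α : FIC, (∀ p ∈ Eof θ, α.r p.1 p.2) → NilF α ∧ ModAt α := by
    intro θ hn hm α hE
    have h7 := mod7 θ hm
    have ht := hT θ hn h7
    have hna : NilF α := ⟨6, tr_zero hE (by simp) (pow7 ht)⟩
    refine ⟨hna, hM α hna ?_⟩
    intro δ1 δ2 δ3 l1 l2 l3 c1 c2 c3 l13 u v hj hg
    exact h7 δ1 δ2 δ3 (le_of hX ht hE l1 c1) (le_of hX ht hE l2 c2) (le_of hX ht hE l3 c3) c1 c2 c3 l13 u v hj hg
  refine ⟨((UW_finite.toFinset ×ˢ UW_finite.toFinset).powerset).filter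
    (fun E => ∀ α : FIC, (∀ p ∈ E, α.r p.1 p.2) → NilF α ∧ ModAt α), ?_, ?_, ?_⟩
  · intro E hE p hp
    simp only [Finset.mem_filter, Finset.mem_powerset] at hE
    have := hE.1 hp
    simp only [Finset.mem_product, Set.Finite.mem_toFinset] at this
    exact ⟨this.1.1, this.2.1, this.1.2.1, this.2.2.1⟩
  · intro E hE
    simp only [Finset.mem_filter] at hE
    exact hE.2
  · intro θ hn hm
    refine ⟨Eof θ, ?_, ?_⟩
    · simp only [Finset.mem_filter, Finset.mem_powerset]
      refine ⟨?_, main θ hn hm⟩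
      unfold Eof
      exact Finset.filter_subset _ _
    · intro p hp
      unfold Eof at hp
      simp only [Finset.mem_filter] at hp
      exact hp.2

end Pool.Agent.Helper93.IM
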