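import Pool.Agent.Helper93.IM.M_Fin
import Pool.Agent.Helper1.IM.M_V1

/-!
# Project IM, finiteness for varieties
-/

set_option autoImplicit false

open Helper1.IM

namespace Pool.Agent.Helper93.IM

/-- The class defined by a finite list of identities. -/
def Cls (E : List (Tm × Tm)) : Set InvSg := {A | ∀ p ∈ E, Sat1 A p}

/-- THEOREM C: there are finitely many finitely based nil varieties with modular subvariety lattice such that a nil
variety has a modular subvariety lattice if and only if it is contained in one of them. -/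
def ThC : Prop := ∃ L : List (List (Tm × Tm)),
  (∀ E ∈ L, ∀ p ∈ E, p.1.wd.length ≤ 8 ∧ p.2.wd.length ≤ 8) ∧
  (∀ E ∈ L, IsNil (Cls E) ∧ ModLat (Cls E)) ∧
  ∀ V : Set InvSg, IsVar V → IsNil V → (ModLat V ↔ ∃ E ∈ L, V ⊆ Cls E)

theorem pw_V (A : InvSg) (e : ℕ → A.carrier) (n : ℕ) :
    V_V1 A e (List.replicate (n + 1) (0, false)) = (((fun b => e 0 * b)^[n] (e 0) : A.carrier) : WithOne A.carrier) := by
  induction n with
  | zero =>
    change V_V1 A e [(0, false)] = _
    rw [V_cons_V1, V_nil_V1, mul_one]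
    simp [evl]
  | succ n ih =>
    rw [List.replicate_succ, V_cons_V1, ih, Function.iterate_succ_apply', ← WithOne.coe_mul]
    simp [evl]

theorem nil_conv {θ : FIC} (h : NilF θ) : IsNil (Md θ) := by
  obtain ⟨k, hk⟩ := h
  intro A hA
  have hz : ∀ a : A.carrier, IsZero' A ((fun b => a * b)^[k] a) := by
    intro a c
    set e : ℕ → A.carrier := fun i => if i = 0 then a else c with he
    have e0 : e 0 = a := by simp [he]
    have e1 : V_V1 A e [X 1] = (c : WithOne A.carrier) := by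
      rw [V_cons_V1, V_nil_V1, mul_one]
      simp [evl, X, he]
    have hp := pw_V A e k
    rw [e0] at hp
    have h1 := ((Id_iff_V1 {A} _ _).1 (hA _ _ (hk.2 [X 1]).1)).2 A rfl e
    have h2 := ((Id_iff_V1 {A} _ _).1 (hA _ _ (hk.2 [X 1]).2)).2 A rfl e
    rw [V_append_V1, e1, hp, ← WithOne.coe_mul] at h1
    rw [V_append_V1, e1, hp, ← WithOne.coe_mul] at h2
    exact ⟨WithOne.coe_inj.1 h1, WithOne.coe_inj.1 h2⟩
  obtain ⟨a0⟩ := A.ne
  refine ⟨(fun b => a0 * b)^[k] a0, hz a0, fun a => ⟨k, ?_⟩⟩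
  have h1 := (hz a ((fun b => a0 * b)^[k] a0)).1
  have h2 := (hz a0 ((fun b => a * b)^[k] a)).2
  rw [← h1, h2]

theorem hThC (hF : StFin) (h2 : StV2) (h3 : StV3) (h5 : StV5) (h6 : StV6) : ThC := by
  classical
  obtain ⟨L, hL1, hL2, hL3⟩ := hF
  have htm : ∀ w : Wd, ∃ t : Tm, w ≠ [] → t.wd = w := by
    intro w
    by_cases hw : w = []
    · exact ⟨.var 0, fun h => absurd hw h⟩
    · obtain ⟨t, ht⟩ := term_V1 w hw
      exact ⟨t, fun _ => ht⟩
  choose tm htm using htm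
  set tr : Finset (Wd × Wd) → List (Tm × Tm) := fun E => E.toList.map (fun p => (tm p.1, tm p.2)) with htr
  have key : ∀ E ∈ L, ∀ θ : FIC, Md θ ⊆ Cls (tr E) ↔ ∀ p ∈ E, θ.r p.1 p.2 := by
    intro E hE θ
    have h0 : ∀ p ∈ E, ((∀ A ∈ Md θ, Sat1 A (tm p.1, tm p.2)) ↔ θ.r p.1 p.2) := by
      intro p hp
      obtain ⟨n1, n2, -⟩ := hL1 E hE p hp
      rw [hV1.2.1 (Md θ) (tm p.1) (tm p.2), htm _ n1, htm _ n2, h2 θ p.1 p.2]
    constructor
    · intro h p hp
      rw [← h0 p hp]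
      intro A hA
      exact h hA _ (by
        simp only [htr, List.mem_map, Finset.mem_toList]
        exact ⟨p, hp, rfl⟩)
    · intro h A hA q hq
      simp only [htr, List.mem_map, Finset.mem_toList] at hq
      obtain ⟨p, hp, rfl⟩ := hq
      exact (h0 p hp).2 (h p hp) A hA
  refine ⟨L.toList.map tr, ?_, ?_, ?_⟩
  · intro E' hE'
    simp only [List.mem_map, Finset.mem_toList] at hE'
    obtain ⟨E, hE, rfl⟩ := hE'
    intro q hq
    simp only [htr, List.mem_map, Finset.mem_toList] at hq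
    obtain ⟨p, hp, rfl⟩ := hq
    obtain ⟨n1, n2, l1, l2⟩ := hL1 E hE p hp
    simp only
    rw [htm _ n1, htm _ n2]
    exact ⟨l1, l2⟩
  · intro E' hE'
    simp only [List.mem_map, Finset.mem_toList] at hE'
    obtain ⟨E, hE, rfl⟩ := hE'
    have hv : IsVar (Cls (tr E)) := ⟨{p | p ∈ tr E}, rfl⟩
    obtain ⟨θ, hθ⟩ := h3.2 _ hv
    have h7 : ∀ p ∈ E, θ.r p.1 p.2 := (key E hE θ).1 (by rw [hθ])
    obtain ⟨hn, hm⟩ := hL2 E hE θ h7
    rw [hθ]
    exact ⟨nil_conv hn, (h5 θ).2 hm⟩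
  · intro V hV hN
    obtain ⟨θ, rfl⟩ := h3.2 V hV
    have hn := h6.1 θ hN
    rw [h5 θ]
    constructor
    · intro hm
      obtain ⟨E, hE, hp⟩ := hL3 θ hn hm
      refine ⟨tr E, ?_, (key E hE θ).2 hp⟩
      simp only [List.mem_map, Finset.mem_toList]
      exact ⟨E, hE, rfl⟩
    · rintro ⟨E', hE', hsub⟩
      simp only [List.mem_map, Finset.mem_toList] at hE'
      obtain ⟨E, hE, rfl⟩ := hE'
      exact (hL2 E hE θ ((key E hE θ).1 hsub)).2

end Pool.Agent.Helper93.IM
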